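import Pool.Agent.N733.TG.M

set_option autoImplicit false

/-!
Properties of tuples of integers which are bad for few tuples at every scale (helper760), part A: counting, and the values of
multiplicative functions (tool of helper733).
-/

namespace Pool.Agent.N760.SC

open Finset
open Pool.Agent.N733.TG (LM keep_tuples2)

/-- the number of the powers of two up to `X` -/
lemma log_count (ε : ℝ) (hε : 0 < ε) (X : ℕ) (hX : 1 ≤ X) :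
    ((Nat.log 2 X : ℕ) : ℝ) + 1 ≤ (2 / ε + 1) * (X : ℝ) ^ ε := by
  have hX1 : (1 : ℝ) ≤ X := by exact_mod_cast hX
  have h1 : ((2 : ℕ) : ℝ) ^ (Nat.log 2 X) ≤ X := by exact_mod_cast Nat.pow_log_le_self 2 (by omega)
  have h2 : (Nat.log 2 X : ℝ) * Real.log 2 ≤ Real.log X := by
    rw [← Real.log_pow]
    exact Real.log_le_log (by positivity) (by exact_mod_cast h1)
  have h3 : (1 / 2 : ℝ) ≤ Real.log 2 := by
    have := Real.log_two_gt_d9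
    linarith
  have h4 := Real.log_natCast_le_rpow_div X hε
  have h5 : (0 : ℝ) ≤ (Nat.log 2 X : ℝ) := Nat.cast_nonneg _
  have h6 : (1 : ℝ) ≤ (X : ℝ) ^ ε := Real.one_le_rpow hX1 hε.le
  have h7 : (Nat.log 2 X : ℝ) ≤ 2 * ((X : ℝ) ^ ε / ε) := by nlinarith
  calc (Nat.log 2 X : ℝ) + 1 ≤ 2 * ((X : ℝ) ^ ε / ε) + (X : ℝ) ^ ε := by linarith
    _ = (2 / ε + 1) * (X : ℝ) ^ ε := by ring

/-- the tuples which are bad at some scale: all coordinates in `[T, κ T]` and `P T s` -/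
def BadTuples {k : ℕ} (κ : ℕ) (P : ℕ → (Fin k → ℕ) → Prop) : Set (Fin k → ℕ) :=
  {s | ∃ T : ℕ, 1 ≤ T ∧ (∀ j, T ≤ s j ∧ s j ≤ κ * T) ∧ P T s}

/-- few bad tuples: at most `C₀ X ^ (k - 1 + ε)` up to `X` -/
theorem count_scales {k : ℕ} (hk : 1 ≤ k) (κ : ℕ) (P Q : ℕ → (Fin k → ℕ) → Prop)
    (hPQ : ∀ (N T : ℕ) (s : Fin k → ℕ), N ≤ T → T < 2 * N → P T s → Q N s)
    (hQ : ∃ K N₀ : ℕ, ∀ N : ℕ, N₀ ≤ N →
      {s : Fin k → ℕ | (∀ j, N ≤ s j ∧ s j ≤ (2 * κ) * N) ∧ Q N s}.ncard ≤ K * N ^ (k - 1)) (ε : ℝ) (hε : 0 < ε) :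
    ∃ C₀ : ℝ, 0 ≤ C₀ ∧ ∀ X : ℕ, 1 ≤ X →
      ({s : Fin k → ℕ | s ∈ BadTuples κ P ∧ ∀ i, s i ≤ X}.ncard : ℝ) ≤ C₀ * (X : ℝ) ^ ((k : ℝ) - 1 + ε) := by
  classical
  obtain ⟨K, N₀, hK⟩ := hQ
  obtain ⟨B, hB⟩ : ∃ B : ℕ, B = (2 * κ * N₀ + 1) ^ k + K := ⟨_, rfl⟩
  refine ⟨(2 / ε + 1) * B, by positivity, fun X hX => ?_⟩
  have hX1 : (1 : ℝ) ≤ X := by exact_mod_cast hX
  obtain ⟨S, hS⟩ : ∃ S : ℕ → Set (Fin k → ℕ), S = fun a => {s : Fin k → ℕ |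
      (∀ j, 2 ^ a ≤ s j ∧ s j ≤ (2 * κ) * 2 ^ a) ∧ Q (2 ^ a) s} := ⟨_, rfl⟩
  have hfin : ∀ a, (S a).Finite := by
    intro a
    rw [hS]
    refine (Set.Finite.pi' (t := fun _ : Fin k => Set.Iic ((2 * κ) * 2 ^ a)) fun _ => Set.finite_Iic _).subset ?_
    intro s hs j
    exact (hs.1 j).2
  have hcard : ∀ a, 2 ^ a ≤ X → (S a).ncard ≤ B * X ^ (k - 1) := by
    intro a ha
    by_cases h1 : N₀ ≤ 2 ^ a
    · have h2 := hK (2 ^ a) h1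
      have h3 : (S a).ncard ≤ K * (2 ^ a) ^ (k - 1) := by rw [hS]; exact h2
      refine h3.trans (Nat.mul_le_mul (by rw [hB]; omega) (Nat.pow_le_pow_left ha _))
    · push Not at h1
      have h2 : S a ⊆ ((Fintype.piFinset (fun _ : Fin k => Finset.range (2 * κ * N₀ + 1)) : Finset (Fin k → ℕ)) :
          Set (Fin k → ℕ)) := by
        intro s hs
        rw [hS] at hs
        rw [Finset.mem_coe, Fintype.mem_piFinset]
        intro j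
        rw [Finset.mem_range]
        have h3 := (hs.1 j).2
        have h4 : (2 * κ) * 2 ^ a ≤ 2 * κ * N₀ := Nat.mul_le_mul_left _ h1.le
        omega
      have h3 := Set.ncard_le_ncard h2 (Finset.finite_toSet _)
      rw [Set.ncard_coe_finset, Fintype.card_piFinset] at h3
      simp only [Finset.card_range, Finset.prod_const, Finset.card_univ, Fintype.card_fin] at h3
      have h4 : 1 ≤ X ^ (k - 1) := Nat.one_le_pow _ _ (by omega)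
      calc (S a).ncard ≤ (2 * κ * N₀ + 1) ^ k := h3
        _ ≤ B := by rw [hB]; omega
        _ ≤ B * X ^ (k - 1) := Nat.le_mul_of_pos_right _ h4
  have hsub : {s : Fin k → ℕ | s ∈ BadTuples κ P ∧ ∀ i, s i ≤ X} ⊆
      ⋃ a ∈ Finset.range (Nat.log 2 X + 1), S a := by
    rintro s ⟨⟨T, hT, h1, h2⟩, h3⟩
    have h4 : 2 ^ (Nat.log 2 T) ≤ T := Nat.pow_log_le_self 2 (by omega)
    have h5 : T < 2 ^ (Nat.log 2 T + 1) := Nat.lt_pow_succ_log_self (by norm_num) T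
    have h6 : T < 2 * 2 ^ (Nat.log 2 T) := by rw [pow_succ] at h5; omega
    have hTX : T ≤ X := ((h1 ⟨0, hk⟩).1).trans (h3 ⟨0, hk⟩)
    rw [Set.mem_iUnion₂]
    refine ⟨Nat.log 2 T, Finset.mem_range.2 (Nat.lt_succ_of_le (Nat.log_mono_right hTX)), ?_⟩
    rw [hS]
    refine ⟨fun j => ⟨h4.trans (h1 j).1, (h1 j).2.trans ?_⟩, hPQ _ T s h4 h6 h2⟩
    calc κ * T ≤ κ * (2 * 2 ^ (Nat.log 2 T)) := Nat.mul_le_mul_left _ h6.le
      _ = (2 * κ) * 2 ^ (Nat.log 2 T) := by ring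
  have hsub2 : {s : Fin k → ℕ | s ∈ BadTuples κ P ∧ ∀ i, s i ≤ X} ⊆
      (((Finset.range (Nat.log 2 X + 1)).biUnion (fun a => (hfin a).toFinset) : Finset (Fin k → ℕ)) :
        Set (Fin k → ℕ)) := by
    intro s hs
    have h1 := hsub hs
    rw [Set.mem_iUnion₂] at h1
    obtain ⟨a, ha, h2⟩ := h1
    rw [Finset.mem_coe, Finset.mem_biUnion]
    exact ⟨a, ha, (Set.Finite.mem_toFinset _).2 h2⟩
  have h1 := Set.ncard_le_ncard hsub2 (Finset.finite_toSet _)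
  rw [Set.ncard_coe_finset] at h1
  have h2 : ((Finset.range (Nat.log 2 X + 1)).biUnion (fun a => (hfin a).toFinset)).card ≤
      (Nat.log 2 X + 1) * (B * X ^ (k - 1)) := by
    refine Finset.card_biUnion_le.trans ?_
    calc ∑ a ∈ Finset.range (Nat.log 2 X + 1), ((hfin a).toFinset).card
        ≤ ∑ _a ∈ Finset.range (Nat.log 2 X + 1), B * X ^ (k - 1) := by
          refine Finset.sum_le_sum (fun a ha => ?_)
          rw [← Set.ncard_eq_toFinset_card _ (hfin a)]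
          refine hcard a ?_
          rw [Finset.mem_range, Nat.lt_succ_iff] at ha
          exact (Nat.pow_le_pow_right (by norm_num) ha).trans (Nat.pow_log_le_self 2 (by omega))
      _ = (Nat.log 2 X + 1) * (B * X ^ (k - 1)) := by
          rw [Finset.sum_const, Finset.card_range, smul_eq_mul]
  have h3 : ({s : Fin k → ℕ | s ∈ BadTuples κ P ∧ ∀ i, s i ≤ X}.ncard : ℝ) ≤
      ((Nat.log 2 X : ℕ) + 1 : ℝ) * (B * (X : ℝ) ^ (k - 1)) := by exact_mod_cast h1.trans h2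
  have h4 := log_count ε hε X hX
  have h5 : (X : ℝ) ^ (k - 1) = (X : ℝ) ^ ((k : ℝ) - 1) := by
    rw [← Real.rpow_natCast, Nat.cast_sub hk, Nat.cast_one]
  calc ({s : Fin k → ℕ | s ∈ BadTuples κ P ∧ ∀ i, s i ≤ X}.ncard : ℝ)
      ≤ ((Nat.log 2 X : ℕ) + 1 : ℝ) * (B * (X : ℝ) ^ (k - 1)) := h3
    _ ≤ ((2 / ε + 1) * (X : ℝ) ^ ε) * (B * (X : ℝ) ^ (k - 1)) := mul_le_mul_of_nonneg_right h4 (by positivity)
    _ = ((2 / ε + 1) * B) * ((X : ℝ) ^ ((k : ℝ) - 1) * (X : ℝ) ^ ε) := by rw [h5]; ring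
    _ = _ := by rw [← Real.rpow_add (by linarith)]

/-- few integers in a window -/
lemma window_nat (T : ℕ) (hT : 1 ≤ T) (x κ : ℝ) (hκ : 0 ≤ κ) (P : Finset ℕ)
    (hP : ∀ v ∈ P, 1 ≤ v ∧ v ≤ T ∧ |x - v| ≤ (v : ℝ) ^ κ) : (P.card : ℝ) ≤ 3 * (T : ℝ) ^ κ := by
  have hT1 : (1 : ℝ) ≤ T := by exact_mod_cast hT
  have hTκ : (1 : ℝ) ≤ (T : ℝ) ^ κ := Real.one_le_rpow hT1 hκ
  rcases P.eq_empty_or_nonempty with he | he
  · rw [he, card_empty, Nat.cast_zero]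
    positivity
  · obtain ⟨v0, hv0⟩ : ∃ v0, v0 = P.min' he := ⟨_, rfl⟩
    have hv0m : v0 ∈ P := by rw [hv0]; exact min'_mem _ _
    obtain ⟨g1, g2, g3⟩ := hP v0 hv0m
    have hle : ∀ v : ℕ, 1 ≤ v → v ≤ T → (v : ℝ) ^ κ ≤ (T : ℝ) ^ κ := by
      intro v h1 h2
      apply Real.rpow_le_rpow (Nat.cast_nonneg _) (by exact_mod_cast h2) hκ
    have hs : P ⊆ Icc v0 (v0 + ⌊2 * (T : ℝ) ^ κ⌋₊) := by
      intro v hv
      have h1 : v0 ≤ v := by rw [hv0]; exact min'_le _ _ hv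
      rw [mem_Icc]
      refine ⟨h1, ?_⟩
      obtain ⟨k1, k2, k3⟩ := hP v hv
      have h2 := abs_le.1 (k3.trans (hle v k1 k2))
      have h3 := abs_le.1 (g3.trans (hle v0 g1 g2))
      have h4 : ((v - v0 : ℕ) : ℝ) ≤ 2 * (T : ℝ) ^ κ := by
        rw [Nat.cast_sub h1]
        linarith [h2.1, h3.2]
      have := Nat.le_floor h4
      omega
    have h5 := card_le_card hs
    rw [Nat.card_Icc] at h5
    have h6 : (P.card : ℝ) ≤ (⌊2 * (T : ℝ) ^ κ⌋₊ : ℝ) + 1 := by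
      have : P.card ≤ ⌊2 * (T : ℝ) ^ κ⌋₊ + 1 := by omega
      exact_mod_cast this
    have h7 := Nat.floor_le (by positivity : (0 : ℝ) ≤ 2 * (T : ℝ) ^ κ)
    linarith

/-- the tuples `v` such that some `s` in `W` is in the window around `v` -/
def NearTuple {k : ℕ} (W : Set (Fin k → ℕ)) (θ : ℝ) : Set (Fin k → ℕ) :=
  {v | ∃ s ∈ W, ∀ i, |(s i : ℝ) - v i| ≤ (v i : ℝ) ^ θ}

theorem count_near {k : ℕ} (W : Set (Fin k → ℕ)) {ρ θ : ℝ} (hρ : 0 ≤ ρ) (hθ : 0 ≤ θ) (hθ1 : θ ≤ 1) {C₀ : ℝ} (hC₀ : 0 ≤ C₀)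
    (hW : ∀ X : ℕ, 1 ≤ X → ({s : Fin k → ℕ | s ∈ W ∧ ∀ i, s i ≤ X}.ncard : ℝ) ≤ C₀ * (X : ℝ) ^ ρ) :
    ∃ C₁ : ℝ, ∀ X : ℕ, 1 ≤ X → ({v : Fin k → ℕ | (∀ i, 2 ≤ v i ∧ v i ≤ X) ∧ v ∈ NearTuple W θ}.ncard : ℝ) ≤
      C₁ * (X : ℝ) ^ (ρ + k * θ) := by
  classical
  refine ⟨C₀ * 2 ^ ρ * 3 ^ k, fun X hX => ?_⟩
  have hX1 : (1 : ℝ) ≤ X := by exact_mod_cast hX
  have hfin : {s : Fin k → ℕ | s ∈ W ∧ ∀ i, s i ≤ 2 * X}.Finite := by
    refine (Set.Finite.pi' (t := fun _ : Fin k => Set.Iic (2 * X)) fun _ => Set.finite_Iic _).subset ?_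
    intro s hs j
    exact hs.2 j
  obtain ⟨V, hV⟩ : ∃ V : (Fin k → ℕ) → Finset (Fin k → ℕ), V = fun s => Fintype.piFinset (fun i =>
      (Icc 1 X).filter (fun v : ℕ => |(s i : ℝ) - v| ≤ (v : ℝ) ^ θ)) := ⟨_, rfl⟩
  have hVc : ∀ s, ((V s).card : ℝ) ≤ (3 * (X : ℝ) ^ θ) ^ k := by
    intro s
    rw [hV, Fintype.card_piFinset]
    push_cast
    calc ∏ i : Fin k, (((Icc 1 X).filter (fun v : ℕ => |(s i : ℝ) - v| ≤ (v : ℝ) ^ θ)).card : ℝ)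
        ≤ ∏ _i : Fin k, 3 * (X : ℝ) ^ θ := by
          refine prod_le_prod (fun i _ => Nat.cast_nonneg _) (fun i _ => window_nat X hX (s i) θ hθ _ ?_)
          intro v hv
          rw [mem_filter, mem_Icc] at hv
          exact ⟨hv.1.1, hv.1.2, hv.2⟩
      _ = (3 * (X : ℝ) ^ θ) ^ k := by rw [prod_const, card_univ, Fintype.card_fin]
  have hsub : {v : Fin k → ℕ | (∀ i, 2 ≤ v i ∧ v i ≤ X) ∧ v ∈ NearTuple W θ} ⊆
      ((hfin.toFinset.biUnion V : Finset (Fin k → ℕ)) : Set (Fin k → ℕ)) := by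
    rintro v ⟨h1, s, hs, h2⟩
    rw [Finset.mem_coe, Finset.mem_biUnion]
    refine ⟨s, ?_, ?_⟩
    · rw [Set.Finite.mem_toFinset]
      refine ⟨hs, fun i => ?_⟩
      have h3 := (abs_le.1 (h2 i)).2
      have hv1 : (1 : ℝ) ≤ v i := by exact_mod_cast (by have := (h1 i).1; omega : 1 ≤ v i)
      have hvX : (v i : ℝ) ≤ X := by exact_mod_cast (h1 i).2
      have h4 : (v i : ℝ) ^ θ ≤ v i := by
        calc (v i : ℝ) ^ θ ≤ (v i : ℝ) ^ (1 : ℝ) := Real.rpow_le_rpow_of_exponent_le hv1 hθ1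
          _ = v i := Real.rpow_one _
      have h5 : (s i : ℝ) ≤ ((2 * X : ℕ) : ℝ) := by push_cast; linarith
      exact_mod_cast h5
    · rw [hV, Fintype.mem_piFinset]
      intro i
      rw [mem_filter, mem_Icc]
      exact ⟨⟨by have := (h1 i).1; omega, (h1 i).2⟩, h2 i⟩
  have h1 := Set.ncard_le_ncard hsub (Finset.finite_toSet _)
  rw [Set.ncard_coe_finset] at h1
  have h2 : ((hfin.toFinset.biUnion V).card : ℝ) ≤ (C₀ * ((2 * X : ℕ) : ℝ) ^ ρ) * (3 * (X : ℝ) ^ θ) ^ k := by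
    calc ((hfin.toFinset.biUnion V).card : ℝ) ≤ ∑ s ∈ hfin.toFinset, ((V s).card : ℝ) := by
          exact_mod_cast card_biUnion_le
      _ ≤ ∑ _s ∈ hfin.toFinset, (3 * (X : ℝ) ^ θ) ^ k := sum_le_sum (fun s _ => hVc s)
      _ = (({s : Fin k → ℕ | s ∈ W ∧ ∀ i, s i ≤ 2 * X}.ncard : ℕ) : ℝ) * (3 * (X : ℝ) ^ θ) ^ k := by
          rw [sum_const, nsmul_eq_mul, ← Set.ncard_eq_toFinset_card _ hfin]
      _ ≤ _ := mul_le_mul_of_nonneg_right (hW (2 * X) (by omega)) (by positivity)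
  calc ({v : Fin k → ℕ | (∀ i, 2 ≤ v i ∧ v i ≤ X) ∧ v ∈ NearTuple W θ}.ncard : ℝ)
      ≤ ((hfin.toFinset.biUnion V).card : ℝ) := by exact_mod_cast h1
    _ ≤ (C₀ * ((2 * X : ℕ) : ℝ) ^ ρ) * (3 * (X : ℝ) ^ θ) ^ k := h2
    _ = (C₀ * 2 ^ ρ * 3 ^ k) * ((X : ℝ) ^ ρ * ((X : ℝ) ^ θ) ^ k) := by
        push_cast
        rw [Real.mul_rpow (by norm_num) (by linarith), mul_pow]
        ring
    _ = (C₀ * 2 ^ ρ * 3 ^ k) * (X : ℝ) ^ (ρ + k * θ) := by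
        congr 1
        rw [← Real.rpow_natCast ((X : ℝ) ^ θ) k, ← Real.rpow_mul (by linarith), ← Real.rpow_add (by linarith)]
        congr 1
        ring

/-- **Values of multiplicative functions.** A property of tuples at scales, bad for at most `K N ^ (k - 1)` tuples at the
scale `N`. For almost all tuples `m`, no tuple `s` near the tuple of the values `F_i (m_i)` is bad at a scale `T` with all
`s_i` in `[T, κ T]`. -/
theorem keep_scales {k : ℕ} (hk : 1 ≤ k) (κ : ℕ) (P Q : ℕ → (Fin k → ℕ) → Prop)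
    (hPQ : ∀ (N T : ℕ) (s : Fin k → ℕ), N ≤ T → T < 2 * N → P T s → Q N s)
    (hQ : ∃ K N₀ : ℕ, ∀ N : ℕ, N₀ ≤ N →
      {s : Fin k → ℕ | (∀ j, N ≤ s j ∧ s j ≤ (2 * κ) * N) ∧ Q N s}.ncard ≤ K * N ^ (k - 1))
    {F : Fin k → ℕ → ℕ} (hF : ∀ i, LM (F i)) {θ : ℝ} (hθ : 0 ≤ θ) (hθk : k * θ < 1) (U : ℕ) :
    ∃ N₀ : ℕ, ∀ N : ℕ, N₀ ≤ N →
      ({m : Fin k → ℕ | (∀ i, 1 ≤ m i ∧ m i ≤ N) ∧ ¬ ∀ (s : Fin k → ℕ) (T : ℕ), 1 ≤ T →
        (∀ i, T ≤ s i ∧ s i ≤ κ * T) → (∀ i, |(s i : ℝ) - F i (m i)| ≤ (F i (m i) : ℝ) ^ θ) → ¬ P T s}.ncard : ℝ) ≤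
        (N : ℝ) ^ k / Real.log N ^ U := by
  have hk1 : (1 : ℝ) ≤ k := by exact_mod_cast hk
  obtain ⟨ε, hε⟩ : ∃ ε : ℝ, ε = (1 - k * θ) / 2 := ⟨_, rfl⟩
  have hε0 : 0 < ε := by rw [hε]; linarith
  have hθ1 : θ ≤ 1 := by nlinarith
  obtain ⟨C₀, hC₀, h1⟩ := count_scales hk κ P Q hPQ hQ ε hε0
  obtain ⟨C₁, h2⟩ := count_near (BadTuples κ P) (ρ := (k : ℝ) - 1 + ε) (θ := θ) (by linarith) hθ hθ1 hC₀ h1
  obtain ⟨N₀, hN₀⟩ := keep_tuples2 hk hF (c := ε) hε0 U C₁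
  refine ⟨N₀, fun N hN => ?_⟩
  have h3 := hN₀ N hN (NearTuple (BadTuples κ P) θ) (fun X hX => by
    refine (h2 X hX).trans (le_of_eq ?_)
    congr 2
    rw [hε]
    ring)
  refine le_trans ?_ h3
  have hfin : {m : Fin k → ℕ | (∀ i, 1 ≤ m i ∧ m i ≤ N) ∧ ¬ ((∀ i, 2 ≤ F i (m i)) ∧
      (fun i => F i (m i)) ∉ NearTuple (BadTuples κ P) θ)}.Finite := by
    refine (Set.Finite.pi' (t := fun _ : Fin k => Set.Icc 1 N) fun _ => Set.finite_Icc _ _).subset ?_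
    intro m hm i
    exact hm.1 i
  refine Nat.cast_le.2 (Set.ncard_le_ncard ?_ hfin)
  rintro m ⟨g1, g2⟩
  refine ⟨g1, fun g3 => g2 fun s T hT hs hw hP => g3.2 ⟨s, ⟨T, hT, hs, hP⟩, hw⟩⟩

end Pool.Agent.N760.SC
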