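import Pool.Agent.N760.SC.A
import Pool.Agent.N760.IT.C

set_option autoImplicit false

/-!
Properties of tuples of integers which are bad for few tuples at every scale (helper760), part B: one variable, orbits of
Euler's function, a family of properties.
-/

namespace Pool.Agent.N760.SC

open Finset Filter Topology
open Pool.Agent.N733.TG (LM Expanding NearG)
open Pool.Agent.N760.IT (orb Few densW)
open Pool.Agent.N826.IT.Orb (AlmostAll almostAll_iff almostAll_mono almostAll_finset diagonal card_mono')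

/-- a countable family of sets with a power saving -/
theorem orbit_family {f : ℕ → ℕ} (hf : LM f) {θ : ℝ} (hθ0 : 0 ≤ θ) (hθ1 : θ < 1) {C₀ : ℕ → ℝ} {W : ℕ → Set ℕ}
    (hW : ∀ a, Few (C₀ a) θ (W a)) :
    ∃ K : ℕ → ℕ, Tendsto K atTop atTop ∧ AlmostAll (fun m => ∀ k ≤ K m, ∀ a ≤ K m, orb f k m ∉ W a) := by
  classical
  refine diagonal (P := fun j m => ∀ k ≤ j, ∀ a ≤ j, orb f k m ∉ W a)
    (fun i j m hij h k hk a ha => h k (hk.trans hij) a (ha.trans hij)) (fun j => ?_)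
  have h1 := almostAll_finset ((range (j + 1)) ×ˢ (range (j + 1))) (P := fun p m => orb f p.1 m ∉ W p.2) (fun p _ => by
    rw [almostAll_iff]
    intro ε hε
    obtain ⟨N₀, hN₀⟩ := densW hf hθ0 hθ1 (C₀ p.2) p.1 ε hε
    refine ⟨N₀, fun N hN => le_trans (Nat.cast_le.2 (card_mono' ?_)) (hN₀ N hN (W p.2) (hW p.2))⟩
    intro m hm
    exact not_not.1 hm)
  exact almostAll_mono h1 (fun m hm k hk a ha => hm (k, a) (mem_product.2
    ⟨mem_range.2 (by omega), mem_range.2 (by omega)⟩))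

/-- the number of the bad integers up to `X`, if there is a bounded number of them in `[N, 2 N]` -/
theorem count_one (P : ℕ → Prop) (hP : ∃ K N₀ : ℕ, ∀ N : ℕ, N₀ ≤ N → {s : ℕ | N ≤ s ∧ s ≤ 2 * N ∧ P s}.ncard ≤ K)
    (ε : ℝ) (hε : 0 < ε) : ∃ C : ℝ, 0 ≤ C ∧ ∀ X : ℝ, 1 ≤ X → {s : ℕ | (1 ≤ s ∧ P s) ∧ (s : ℝ) ≤ X}.Finite ∧
      ({s : ℕ | (1 ≤ s ∧ P s) ∧ (s : ℝ) ≤ X}.ncard : ℝ) ≤ C * X ^ ε := by
  classical
  obtain ⟨K, N₀, hK⟩ := hP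
  obtain ⟨C, hC, h⟩ := count_scales (k := 1) le_rfl 1 (fun _ s => P (s 0)) (fun _ s => P (s 0)) (fun _ _ _ _ _ h => h)
    ⟨K, N₀, fun N hN => by
      have h1 := hK N hN
      have hfin : {s : ℕ | N ≤ s ∧ s ≤ 2 * N ∧ P s}.Finite := (Set.finite_Icc N (2 * N)).subset (fun s hs => ⟨hs.1, hs.2.1⟩)
      have hinj : Set.InjOn (fun s : Fin 1 → ℕ => s 0)
          {s : Fin 1 → ℕ | (∀ j, N ≤ s j ∧ s j ≤ (2 * 1) * N) ∧ P (s 0)} := by
        intro s _ s' _ hss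
        funext j
        rw [Subsingleton.elim j 0]
        exact hss
      have h2 : {s : Fin 1 → ℕ | (∀ j, N ≤ s j ∧ s j ≤ (2 * 1) * N) ∧ P (s 0)}.ncard ≤
          {s : ℕ | N ≤ s ∧ s ≤ 2 * N ∧ P s}.ncard := by
        refine Set.ncard_le_ncard_of_injOn (fun s : Fin 1 → ℕ => s 0) (fun s hs => ?_) hinj hfin
        exact ⟨(hs.1 0).1, by have := (hs.1 0).2; omega, hs.2⟩
      simp only [Nat.sub_self, pow_zero, mul_one]
      simp only [mul_one] at h2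
      exact h2.trans h1⟩ ε hε
  refine ⟨C, hC, fun X hX => ?_⟩
  have hX1 : 1 ≤ ⌊X⌋₊ := Nat.le_floor (by exact_mod_cast hX)
  have hfin : {s : ℕ | (1 ≤ s ∧ P s) ∧ (s : ℝ) ≤ X}.Finite :=
    (Set.finite_Iic ⌊X⌋₊).subset (fun s hs => Nat.le_floor hs.2)
  refine ⟨hfin, ?_⟩
  have hfin2 : {s : Fin 1 → ℕ | s ∈ BadTuples 1 (fun _ s => P (s 0)) ∧ ∀ i, s i ≤ ⌊X⌋₊}.Finite := by
    refine (Set.Finite.pi' (t := fun _ : Fin 1 => Set.Iic ⌊X⌋₊) fun _ => Set.finite_Iic _).subset ?_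
    intro s hs j
    exact hs.2 j
  have h1 : {s : ℕ | (1 ≤ s ∧ P s) ∧ (s : ℝ) ≤ X}.ncard ≤
      {s : Fin 1 → ℕ | s ∈ BadTuples 1 (fun _ s => P (s 0)) ∧ ∀ i, s i ≤ ⌊X⌋₊}.ncard := by
    refine Set.ncard_le_ncard_of_injOn (fun s : ℕ => (fun _ : Fin 1 => s)) (fun s hs => ?_) ?_ hfin2
    · exact ⟨⟨s, hs.1.1, fun _ => ⟨le_rfl, by show s ≤ 1 * s; omega⟩, hs.1.2⟩, fun _ => Nat.le_floor hs.2⟩
    · intro s _ s' _ hss
      exact congrFun hss 0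
  calc ({s : ℕ | (1 ≤ s ∧ P s) ∧ (s : ℝ) ≤ X}.ncard : ℝ)
      ≤ ({s : Fin 1 → ℕ | s ∈ BadTuples 1 (fun _ s => P (s 0)) ∧ ∀ i, s i ≤ ⌊X⌋₊}.ncard : ℝ) := by exact_mod_cast h1
    _ ≤ C * ((⌊X⌋₊ : ℕ) : ℝ) ^ (((1 : ℕ) : ℝ) - 1 + ε) := h ⌊X⌋₊ hX1
    _ = C * ((⌊X⌋₊ : ℕ) : ℝ) ^ ε := by
        congr 2
        push_cast
        ring
    _ ≤ C * X ^ ε := mul_le_mul_of_nonneg_left
        (Real.rpow_le_rpow (Nat.cast_nonneg _) (Nat.floor_le (by linarith)) hε.le) hC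

/-- **Orbits of Euler's function.** A family `P a`, `a = 1, 2, …`, of properties of integers, each of them with a bounded number
of elements in `[N, 2 N]`, `N` large. For almost all `m`, for all `k ≤ K(m)` and all `a ≤ K(m)`, no integer
`s` near `G (f (φ_k m))` has the property `P a`. -/
theorem orbit_one (P : ℕ → ℕ → Prop)
    (hP : ∀ a, ∃ K N₀ : ℕ, ∀ N : ℕ, N₀ ≤ N → {s : ℕ | N ≤ s ∧ s ≤ 2 * N ∧ P a s}.ncard ≤ K)
    {f : ℕ → ℕ} (hf : LM f) {G : ℕ → ℝ} {d : ℝ} (hG : Expanding G d) {θ : ℝ} (hθ : 0 ≤ θ) (hθ1 : θ < 1) :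
    ∃ K : ℕ → ℕ, Tendsto K atTop atTop ∧
      AlmostAll (fun m => ∀ k ≤ K m, ∀ a ≤ K m, ∀ s : ℕ, 1 ≤ s → |(s : ℝ) - G (orb f k m)| ≤ (orb f k m : ℝ) ^ θ →
        ¬ P a s) := by
  have hd := hG.one_le
  obtain ⟨ε, hε⟩ : ∃ ε : ℝ, ε = (1 - θ) / (2 * d) := ⟨_, rfl⟩
  have hε0 : 0 < ε := by rw [hε]; exact div_pos (by linarith) (by linarith)
  have hεd : d * ε = (1 - θ) / 2 := by
    rw [hε]
    field_simp
  choose C hC h using fun a => count_one (P a) (hP a) ε hε0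
  have h2 : ∀ a, ∃ K : ℝ, Few K (d * ε + θ) (NearG {s : ℕ | 1 ≤ s ∧ P a s} (fun s => (s : ℝ)) G θ) := by
    intro a
    obtain ⟨K, hK⟩ := Pool.Agent.N733.TG.nearG_count {s : ℕ | 1 ≤ s ∧ P a s} (fun s => (s : ℝ)) hG (s := ε) (κ := θ)
      hε0.le hθ hθ1.le ⟨C a, h a⟩
    exact ⟨K, fun X hX => le_trans (le_of_eq (by congr!)) (hK X hX)⟩
  choose C' hC' using h2
  obtain ⟨K, hK, hK2⟩ := orbit_family hf (θ := d * ε + θ) (by positivity) (by rw [hεd]; linarith)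
    (W := fun a => NearG {s : ℕ | 1 ≤ s ∧ P a s} (fun s => (s : ℝ)) G θ) (C₀ := C') hC'
  refine ⟨K, hK, almostAll_mono hK2 (fun m hm k hk a ha s hs hw hp => hm k hk a ha ⟨s, ⟨hs, hp⟩, hw⟩)⟩

end Pool.Agent.N760.SC
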