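import Pool.Agent.N760.SC.B

set_option autoImplicit false

/-!
Properties of integers with a bounded number of elements in `[N, 2 N]` (helper760), part C: values of multiplicative functions,
one variable (tool of helper733).
-/

namespace Pool.Agent.N760.SC

open Finset Filter Topology
open Pool.Agent.N733.TG (LM Expanding keep_windows)

/-- the values of multiplicative functions, one variable -/
theorem keep_one (P : ℕ → Prop) (hP : ∃ K N₀ : ℕ, ∀ N : ℕ, N₀ ≤ N → {s : ℕ | N ≤ s ∧ s ≤ 2 * N ∧ P s}.ncard ≤ K)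
    {f : ℕ → ℕ} (hf : LM f) {G : ℕ → ℝ} {d : ℝ} (hG : Expanding G d) {θ : ℝ} (hθ : 0 ≤ θ) (hθ1 : θ < 1) (U : ℕ) :
    ∃ N₀ : ℕ, ∀ N : ℕ, N₀ ≤ N →
      ({m : ℕ | 1 ≤ m ∧ m ≤ N ∧ ¬ ∀ s : ℕ, 1 ≤ s → |(s : ℝ) - G (f m)| ≤ (f m : ℝ) ^ θ → ¬ P s}.ncard : ℝ) ≤
        N / Real.log N ^ U := by
  obtain ⟨N₀, hN₀⟩ := keep_windows {s : ℕ | 1 ≤ s ∧ P s} (fun s => (s : ℝ)) hf hG (s := 0) (κ := θ) le_rfl hθ
    (by rw [mul_zero, zero_add]; exact hθ1) (fun ε hε => by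
      obtain ⟨C, -, h⟩ := count_one P hP ε hε
      refine ⟨C, fun X hX => ?_⟩
      rw [zero_add]
      exact h X hX) U
  refine ⟨N₀, fun N hN => le_trans ?_ (hN₀ N hN)⟩
  have hfin : {m : ℕ | 1 ≤ m ∧ m ≤ N ∧ ∃ t ∈ {s : ℕ | 1 ≤ s ∧ P s}, |(t : ℝ) - G (f m)| ≤ (f m : ℝ) ^ θ}.Finite :=
    (Set.finite_Icc 1 N).subset (fun m hm => ⟨hm.1, hm.2.1⟩)
  refine Nat.cast_le.2 (Set.ncard_le_ncard ?_ hfin)
  rintro m ⟨h1, h2, h3⟩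
  refine ⟨h1, h2, ?_⟩
  push Not at h3
  obtain ⟨s, h4, h5, h6⟩ := h3
  exact ⟨s, ⟨h4, h6⟩, h5⟩

end Pool.Agent.N760.SC
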